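import Mathlib

/-! Representations of a fibre product `G₁ ×_Z G₂` of topological groups: every irreducible
continuous representation is a quotient of an exterior tensor product. -/

namespace W522.V

open scoped TensorProduct

section basic
variable {k : Type} [Field k]
variable {G : Type} [Group G]
variable {U V W : Type} [AddCommGroup U] [Module k U] [AddCommGroup V] [Module k V]
  [AddCommGroup W] [Module k W]

/-- The operator of `g`. -/
abbrev act (ρ : Representation k G V) (g : G) : V →ₗ[k] V := ρ g

/-- The value of a character as an element of `k`. -/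
abbrev chi (χ : G →* kˣ) (g : G) : k := ((χ g : kˣ) : k)

/-- The submodule `S` is invariant under `ρ`. -/
def Inv (ρ : Representation k G V) (S : Submodule k V) : Prop :=
  ∀ g : G, ∀ u ∈ S, act ρ g u ∈ S

/-- `ρ` is irreducible: the space is not zero and its only invariant subspaces are `0` and the
whole space. -/
def Irr (ρ : Representation k G V) : Prop :=
  Nontrivial V ∧ ∀ S : Submodule k V, Inv ρ S → S = ⊥ ∨ S = ⊤

/-- `ρ` is (isomorphic to) a subquotient of `τ`: there are an invariant subspace `S` of `τ` and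
a linear map which is equivariant on `S` and maps `S` onto the space of `ρ`. -/
def SQ (ρ : Representation k G V) (τ : Representation k G W) : Prop :=
  ∃ S : Submodule k W, Inv τ S ∧ ∃ f : W →ₗ[k] V,
    (∀ g : G, ∀ u ∈ S, f (act τ g u) = act ρ g (f u)) ∧ ∀ v : V, ∃ u ∈ S, f u = v

/-- Continuity: all matrix coefficients are continuous. -/
def Cont [TopologicalSpace k] [TopologicalSpace G] (ρ : Representation k G V) : Prop :=
  ∀ (v : V) (φ : V →ₗ[k] k), Continuous fun g : G => φ (act ρ g v)

/-- The twist of a representation by a character. -/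
def tw (χ : G →* kˣ) (ρ : Representation k G V) : Representation k G V where
  toFun g := chi χ g • act ρ g
  map_one' := by simp [chi]
  map_mul' g h := by
    ext v
    simp only [act, chi, map_mul, Units.val_mul, LinearMap.smul_apply, Module.End.mul_apply, map_smul,
      smul_smul, mul_comm]

@[simp] lemma tw_apply (χ : G →* kˣ) (ρ : Representation k G V) (g : G) :
    tw χ ρ g = ((χ g : kˣ) : k) • ρ g := rfl

lemma SQ.trans {ρ : Representation k G U} {σ : Representation k G V}
    {τ : Representation k G W} (h₁ : SQ ρ σ) (h₂ : SQ σ τ) : SQ ρ τ := by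
  obtain ⟨S₁, hS₁, f₁, he₁, hs₁⟩ := h₁
  obtain ⟨S₂, hS₂, f₂, he₂, hs₂⟩ := h₂
  refine ⟨S₂ ⊓ S₁.comap f₂, ?_, f₁ ∘ₗ f₂, ?_, ?_⟩
  · rintro g u ⟨hu, hu'⟩
    refine ⟨hS₂ g u hu, ?_⟩
    change f₂ (τ g u) ∈ S₁
    rw [he₂ g u hu]
    exact hS₁ g _ hu'
  · rintro g u ⟨hu, hu'⟩
    change f₁ (f₂ (τ g u)) = ρ g (f₁ (f₂ u))
    rw [he₂ g u hu, he₁ g _ hu']
  · intro v
    obtain ⟨w, hw, rfl⟩ := hs₁ v
    obtain ⟨u, hu, rfl⟩ := hs₂ w
    exact ⟨u, ⟨hu, hw⟩, rfl⟩

lemma SQ.cont [TopologicalSpace k] [TopologicalSpace G] {ρ : Representation k G V}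
    {τ : Representation k G W} (h : SQ ρ τ) (hc : Cont τ) : Cont ρ := by
  obtain ⟨S, hS, f, he, hs⟩ := h
  intro v φ
  obtain ⟨u, hu, rfl⟩ := hs v
  have := hc u (φ ∘ₗ f)
  refine this.congr fun g => ?_
  change φ (f (τ g u)) = _
  rw [he g u hu]

lemma SQ.twist (χ : G →* kˣ) {ρ : Representation k G V} {τ : Representation k G W}
    (h : SQ ρ τ) : SQ (tw χ ρ) (tw χ τ) := by
  obtain ⟨S, hS, f, he, hs⟩ := h
  refine ⟨S, ?_, f, ?_, hs⟩
  · intro g u hu
    exact S.smul_mem _ (hS g u hu)
  · intro g u hu
    simp [he g u hu]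

/-- The pullback of a representation along a homomorphism. -/
abbrev pull {H : Type} [Group H] (p : H →* G) (ρ : Representation k G V) :
    Representation k H V := MonoidHom.comp ρ p

/-- The tensor product of two representations. -/
noncomputable abbrev tens (ρ : Representation k G V) (τ : Representation k G W) :
    Representation k G (V ⊗[k] W) := Representation.tprod ρ τ

/-- The subrepresentation on an invariant subspace. -/
def sub (ρ : Representation k G V) (S : Submodule k V) (h : Inv ρ S) :
    Representation k G S where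
  toFun g := (ρ g).restrict (h g)
  map_one' := by ext v; simp
  map_mul' g g' := by ext v; simp

lemma sub_coe (ρ : Representation k G V) (S : Submodule k V) (h : Inv ρ S) (g : G) (v : S) :
    ((sub ρ S h g v : S) : V) = ρ g v := rfl

/-- The quotient representation. -/
def quo (ρ : Representation k G V) (S : Submodule k V) (h : Inv ρ S) :
    Representation k G (V ⧸ S) where
  toFun g := S.mapQ S (ρ g) (h g)
  map_one' := by ext v; simp
  map_mul' g g' := by ext v; simp

lemma quo_mk (ρ : Representation k G V) (S : Submodule k V) (h : Inv ρ S) (g : G) (v : V) :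
    quo ρ S h g (S.mkQ v) = S.mkQ (ρ g v) := rfl

lemma sq_sub (ρ : Representation k G V) (S : Submodule k V) (h : Inv ρ S) :
    SQ (sub ρ S h) ρ := by
  obtain ⟨f, hf⟩ := LinearMap.exists_extend (LinearMap.id : S →ₗ[k] S)
  have hf' : ∀ u (hu : u ∈ S), f u = ⟨u, hu⟩ := fun u hu => by
    have := congrArg (fun l : S →ₗ[k] S => l ⟨u, hu⟩) hf
    simpa using this
  refine ⟨S, h, f, ?_, fun v => ⟨v, v.2, hf' v v.2⟩⟩
  intro g u hu
  rw [hf' _ (h g u hu), hf' u hu]
  rfl

lemma sq_quo (ρ : Representation k G V) (S : Submodule k V) (h : Inv ρ S) :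
    SQ (quo ρ S h) ρ := by
  refine ⟨⊤, fun _ _ _ => trivial, S.mkQ, fun g u _ => (quo_mk ρ S h g u).symm, fun v => ?_⟩
  obtain ⟨u, rfl⟩ := S.mkQ_surjective v
  exact ⟨u, trivial, rfl⟩

lemma sq_refl (ρ : Representation k G V) : SQ ρ ρ :=
  ⟨⊤, fun _ _ _ => trivial, LinearMap.id, fun _ _ _ => rfl, fun v => ⟨v, trivial, rfl⟩⟩

/-- A subquotient of an extension that is irreducible is one of the kernel or of the quotient. -/
lemma split {ρ : Representation k G V} (hρ : Irr ρ) {τ : Representation k G W}
    {W₁ W₂ : Type} [AddCommGroup W₁] [Module k W₁] [AddCommGroup W₂] [Module k W₂]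
    {τ₁ : Representation k G W₁} {τ₂ : Representation k G W₂}
    (i : W₁ →ₗ[k] W) (q : W →ₗ[k] W₂) (hi : ∀ g w, i (τ₁ g w) = τ g (i w))
    (hq : ∀ g w, q (τ g w) = τ₂ g (q w)) (hex : ∀ w, q w = 0 → ∃ w₁, i w₁ = w)
    (h : SQ ρ τ) : SQ ρ τ₁ ∨ SQ ρ τ₂ := by
  obtain ⟨S, hS, f, he, hs⟩ := h
  -- the image of `S ∩ range i`
  let T : Submodule k V := (S ⊓ LinearMap.range i).map f
  have hT : Inv ρ T := by
    rintro g _ ⟨u, ⟨hu, w, rfl⟩, rfl⟩
    refine ⟨τ g (i w), ⟨hS g _ hu, ⟨τ₁ g w, hi g w⟩⟩, he g _ hu⟩
  rcases hρ.2 T hT with h0 | h1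
  · right
    -- `f` is zero on `S ∩ ker q`
    have hz : ∀ u ∈ S, q u = 0 → f u = 0 := by
      intro u hu hqu
      obtain ⟨w, hw⟩ := hex u hqu
      have : f u ∈ T := ⟨u, ⟨hu, w, hw⟩, rfl⟩
      rw [h0] at this
      simpa using this
    -- factor `f` on `S` through `q`
    let qS : S →ₗ[k] W₂ := q ∘ₗ S.subtype
    let fS : S →ₗ[k] V := f ∘ₗ S.subtype
    have hker : LinearMap.ker qS ≤ LinearMap.ker fS := by
      intro u hu
      exact hz u u.2 hu
    obtain ⟨F, hF⟩ := LinearMap.exists_extend
      ((Submodule.liftQ _ fS hker) ∘ₗ (LinearMap.quotKerEquivRange qS).symm.toLinearMap)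
    have hF' : ∀ u : S, F (q u) = f u := by
      intro u
      have h1 := congrArg (fun l : (LinearMap.range qS) →ₗ[k] V => l ⟨qS u, u, rfl⟩) hF
      have h2 : (LinearMap.quotKerEquivRange qS).symm ⟨qS u, u, rfl⟩
          = (LinearMap.ker qS).mkQ u := by
        rw [LinearEquiv.symm_apply_eq]
        rfl
      simp only [LinearMap.comp_apply, LinearEquiv.coe_coe, h2] at h1
      exact h1
    refine ⟨S.map q, ?_, F, ?_, ?_⟩
    · rintro g _ ⟨u, hu, rfl⟩
      exact ⟨τ g u, hS g u hu, hq g u⟩
    · rintro g _ ⟨u, hu, rfl⟩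
      rw [← hq, hF' ⟨u, hu⟩, hF' ⟨τ g u, hS g u hu⟩]
      exact he g u hu
    · intro v
      obtain ⟨u, hu, rfl⟩ := hs v
      exact ⟨q u, ⟨u, hu, rfl⟩, hF' ⟨u, hu⟩⟩
  · left
    refine ⟨S.comap i, ?_, f ∘ₗ i, ?_, ?_⟩
    · intro g u hu
      change i (τ₁ g u) ∈ S
      rw [hi]
      exact hS g _ hu
    · intro g u hu
      change f (i (τ₁ g u)) = ρ g (f (i u))
      rw [hi, he g _ hu]
    · intro v
      have : v ∈ T := h1 ▸ trivial
      obtain ⟨u, ⟨hu, w, rfl⟩, rfl⟩ := this
      exact ⟨w, hu, rfl⟩

end basic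

section constituents
variable {k : Type} [Field k] {G H : Type} [Group G] [Group H]
variable {V : Type} [AddCommGroup V] [Module k V]

/-- An irreducible subquotient of `A ⊗ B` is one of `C ⊗ B` for an irreducible subquotient `C`
of `A`. -/
lemma left_const {ρ : Representation k H V} (hρ : Irr ρ) (p : H →* G)
    {B : Type} [AddCommGroup B] [Module k B] (β : Representation k H B) (n : ℕ) :
    ∀ (A : Type) [AddCommGroup A] [Module k A] [FiniteDimensional k A]
      (α : Representation k G A), Module.finrank k A = n →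
      SQ ρ (Representation.tprod (α.comp p) β) →
      ∃ (C : Type) (_ : AddCommGroup C) (_ : Module k C) (_ : FiniteDimensional k C)
        (γ : Representation k G C), Irr γ ∧ SQ γ α ∧
          SQ ρ (Representation.tprod (γ.comp p) β) := by
  induction n using Nat.strong_induction_on with
  | _ n ih =>
  intro A _ _ _ α hn hsq
  by_cases hirr : Irr α
  · exact ⟨A, inferInstance, inferInstance, inferInstance, α, hirr, sq_refl α, hsq⟩
  · have hnt : Nontrivial A := by
      by_contra hA
      rw [not_nontrivial_iff_subsingleton] at hA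
      obtain ⟨S, -, f, -, hs⟩ := hsq
      haveI := hρ.1
      obtain ⟨v, hv⟩ := exists_ne (0 : V)
      obtain ⟨u, -, hu⟩ := hs v
      have h0 : u = 0 := by
        induction u using TensorProduct.induction_on with
        | zero => rfl
        | tmul a b => rw [Subsingleton.elim a 0, TensorProduct.zero_tmul]
        | add x y hx hy => exact Subsingleton.elim _ _
      exact hv (by rw [← hu, h0, map_zero])
    have hex : ∃ S : Submodule k A, Inv α S ∧ S ≠ ⊥ ∧ S ≠ ⊤ := by
      by_contra hcon
      apply hirr
      refine ⟨hnt, fun S hS => ?_⟩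
      by_contra h
      rw [not_or] at h
      exact hcon ⟨S, hS, h.1, h.2⟩
    obtain ⟨S, hS, hb, ht⟩ := hex
    have hspl := split hρ (τ := Representation.tprod (α.comp p) β)
      (τ₁ := Representation.tprod ((sub α S hS).comp p) β)
      (τ₂ := Representation.tprod ((quo α S hS).comp p) β)
      (LinearMap.rTensor B S.subtype) (LinearMap.rTensor B S.mkQ) (by
        intro g w
        have : (LinearMap.rTensor B S.subtype) ∘ₗ
            (Representation.tprod ((sub α S hS).comp p) β g)
            = (Representation.tprod (α.comp p) β g) ∘ₗ (LinearMap.rTensor B S.subtype) := by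
          ext a b; rfl
        exact congrArg (fun l => l w) this) (by
        intro g w
        have : (LinearMap.rTensor B S.mkQ) ∘ₗ (Representation.tprod (α.comp p) β g)
            = (Representation.tprod ((quo α S hS).comp p) β g) ∘ₗ
              (LinearMap.rTensor B S.mkQ) := by
          ext a b; rfl
        exact congrArg (fun l => l w) this) (by
        intro w hw
        have := (rTensor_exact B (f := S.subtype) (g := S.mkQ)
          (by
            intro x
            constructor
            · intro hx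
              exact ⟨⟨x, by simpa using hx⟩, rfl⟩
            · rintro ⟨y, rfl⟩
              simp) S.mkQ_surjective) w
        exact this.1 hw) hsq
    have hlt : Module.finrank k S < n := by
      rw [← hn]
      exact Submodule.finrank_lt ht
    have hlt' : Module.finrank k (A ⧸ S) < n := by
      have h1 := Submodule.finrank_quotient_add_finrank S
      have h2 : 0 < Module.finrank k S := by
        rw [Module.finrank_pos_iff]
        exact Submodule.nontrivial_iff_ne_bot.2 hb
      omega
    rcases hspl with h | h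
    · obtain ⟨C, i1, i2, i3, γ, h1, h2, h3⟩ := ih _ hlt S (sub α S hS) rfl h
      exact ⟨C, i1, i2, i3, γ, h1, h2.trans (sq_sub α S hS), h3⟩
    · obtain ⟨C, i1, i2, i3, γ, h1, h2, h3⟩ := ih _ hlt' (A ⧸ S) (quo α S hS) rfl h
      exact ⟨C, i1, i2, i3, γ, h1, h2.trans (sq_quo α S hS), h3⟩

lemma swap {ρ : Representation k H V} {A B : Type} [AddCommGroup A] [Module k A]
    [AddCommGroup B] [Module k B] (α : Representation k H A) (β : Representation k H B)
    (h : SQ ρ (Representation.tprod α β)) : SQ ρ (Representation.tprod β α) := by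
  refine h.trans ⟨⊤, fun _ _ _ => trivial, (TensorProduct.comm k B A).toLinearMap, ?_, ?_⟩
  · intro g u _
    have : (TensorProduct.comm k B A).toLinearMap ∘ₗ (Representation.tprod β α g)
        = (Representation.tprod α β g) ∘ₗ (TensorProduct.comm k B A).toLinearMap := by
      ext a b; rfl
    exact congrArg (fun l => l u) this
  · intro v
    exact ⟨(TensorProduct.comm k B A).symm v, trivial, by simp⟩

end constituents

end W522.V
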