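import Pool.Agent.W522.V.V1

/-! The fibre product: every irreducible continuous representation of `G₁ ×_Z G₂` is a quotient
of `p₁^* A ⊗ p₂^* B`. -/

namespace W522.V

open scoped TensorProduct

variable {k : Type} [Field k] {G₁ G₂ Z : Type} [Group G₁] [Group G₂] [Group Z]

/-- The fibre product `G₁ ×_Z G₂`. -/
def FP (d₁ : G₁ →* Z) (d₂ : G₂ →* Z) : Subgroup (G₁ × G₂) :=
  (d₁.comp (MonoidHom.fst G₁ G₂)).eqLocus (d₂.comp (MonoidHom.snd G₁ G₂))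

/-- First projection of the fibre product. -/
def pr₁ (d₁ : G₁ →* Z) (d₂ : G₂ →* Z) : FP d₁ d₂ →* G₁ :=
  (MonoidHom.fst G₁ G₂).comp (FP d₁ d₂).subtype

/-- Second projection of the fibre product. -/
def pr₂ (d₁ : G₁ →* Z) (d₂ : G₂ →* Z) : FP d₁ d₂ →* G₂ :=
  (MonoidHom.snd G₁ G₂).comp (FP d₁ d₂).subtype

/-- The degree on the fibre product. -/
def dg (d₁ : G₁ →* Z) (d₂ : G₂ →* Z) : FP d₁ d₂ →* Z := d₁.comp (pr₁ d₁ d₂)

/-- The section of the first projection. -/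
def s₁ (d₁ : G₁ →* Z) (d₂ : G₂ →* Z) (σ : Z →* G₂) (h : ∀ z, d₂ (σ z) = z) :
    G₁ →* FP d₁ d₂ :=
  ((MonoidHom.id G₁).prod (σ.comp d₁)).codRestrict _ (fun g => by
    change d₁ g = d₂ (σ (d₁ g))
    rw [h])

/-- The section of the second projection. -/
def s₂ (d₁ : G₁ →* Z) (d₂ : G₂ →* Z) (σ : Z →* G₁) (h : ∀ z, d₁ (σ z) = z) :
    G₂ →* FP d₁ d₂ :=
  ((σ.comp d₂).prod (MonoidHom.id G₂)).codRestrict _ (fun g => by
    change d₁ (σ (d₂ g)) = d₂ g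
    rw [h])

section cont
variable [TopologicalSpace k] [IsTopologicalRing k]
variable {G H : Type} [Group G] [Group H] [TopologicalSpace G] [TopologicalSpace H]
variable {V : Type} [AddCommGroup V] [Module k V] [FiniteDimensional k V]

lemma Cont.comp {ρ : Representation k H V} (hρ : Cont ρ) (a : G →* H) (ha : Continuous a) :
    Cont (ρ.comp a) := fun v φ => (hρ v φ).comp ha

/-- Continuity of `g ↦ Φ (ρ (a g) ∘ f ∘ ρ (b g))`. -/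
lemma cont_end {ρ : Representation k H V} (hρ : Cont ρ) {a b : G → H} (ha : Continuous a)
    (hb : Continuous b) (f : V →ₗ[k] V) (Φ : (V →ₗ[k] V) →ₗ[k] k) :
    Continuous fun g => Φ (ρ (a g) ∘ₗ f ∘ₗ ρ (b g)) := by
  classical
  let e := Module.finBasis k V
  let Φ' : Fin (Module.finrank k V) → V →ₗ[k] k := fun j =>
    Φ ∘ₗ (e.constr k).toLinearMap ∘ₗ (LinearMap.single k (fun _ => V) j)
  have hΦ : ∀ T : V →ₗ[k] V, Φ T = ∑ j, Φ' j (T (e j)) := by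
    intro T
    have h1 : T = e.constr k (fun j => T (e j)) := by
      refine e.ext fun j => ?_
      rw [Module.Basis.constr_basis]
    have h2 : (fun j => T (e j)) = ∑ j, LinearMap.single k (fun _ => V) j (T (e j)) := by
      ext i
      simp [Finset.sum_apply, Pi.single_apply]
    conv_lhs => rw [h1, h2]
    simp only [map_sum, Φ', LinearMap.comp_apply, LinearEquiv.coe_coe]
  have hexp : ∀ g, Φ (ρ (a g) ∘ₗ f ∘ₗ ρ (b g))
      = ∑ j, ∑ i, e.coord i (ρ (b g) (e j)) * Φ' j (ρ (a g) (f (e i))) := by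
    intro g
    rw [hΦ]
    refine Finset.sum_congr rfl fun j _ => ?_
    have h3 : ρ (b g) (e j) = ∑ i, e.coord i (ρ (b g) (e j)) • e i := by
      conv_lhs => rw [← e.sum_repr (ρ (b g) (e j))]
      rfl
    change Φ' j (ρ (a g) (f (ρ (b g) (e j)))) = _
    conv_lhs => rw [h3]
    simp only [map_sum, map_smul, smul_eq_mul]
  simp only [hexp]
  refine continuous_finsetSum _ fun j _ => continuous_finsetSum _ fun i _ => ?_
  exact ((hρ (e j) (e.coord i)).comp hb).mul ((hρ (f (e i)) (Φ' j)).comp ha)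

end cont

section core
variable {V : Type} [AddCommGroup V] [Module k V] [FiniteDimensional k V]
variable (d₁ : G₁ →* Z) (d₂ : G₂ →* Z) (σ₁ : Z →* G₁) (σ₂ : Z →* G₂)
  (h₁ : ∀ z, d₁ (σ₁ z) = z) (h₂ : ∀ z, d₂ (σ₂ z) = z)

/-- Endomorphisms commuting with the kernel of the second projection. -/
def EE (ρ : Representation k (FP d₁ d₂) V) : Submodule k (V →ₗ[k] V) where
  carrier := {f | ∀ n : FP d₁ d₂, pr₂ d₁ d₂ n = 1 → f ∘ₗ ρ n = ρ n ∘ₗ f}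
  add_mem' := by
    intro f g hf hg n hn
    rw [LinearMap.add_comp, LinearMap.comp_add, hf n hn, hg n hn]
  zero_mem' := by
    intro n _
    rw [LinearMap.zero_comp, LinearMap.comp_zero]
  smul_mem' := by
    intro c f hf n hn
    rw [LinearMap.smul_comp, LinearMap.comp_smul, hf n hn]

/-- The two sections composed. -/
def cc : G₂ →* FP d₁ d₂ :=
  (s₁ d₁ d₂ σ₂ h₂).comp ((pr₁ d₁ d₂).comp (s₂ d₁ d₂ σ₁ h₁))

/-- The action of `G₂` on all endomorphisms. -/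
def B0 (ρ : Representation k (FP d₁ d₂) V) : Representation k G₂ (V →ₗ[k] V) where
  toFun g :=
    { toFun := fun f => ρ (s₂ d₁ d₂ σ₁ h₁ g) ∘ₗ f ∘ₗ ρ (cc d₁ d₂ σ₁ σ₂ h₁ h₂ g⁻¹)
      map_add' := by
        intro f f'
        rw [LinearMap.add_comp, LinearMap.comp_add]
      map_smul' := by
        intro c f
        rw [LinearMap.smul_comp, LinearMap.comp_smul, RingHom.id_apply] }
  map_one' := by
    ext f v
    simp
  map_mul' g g' := by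
    ext f v
    simp [mul_inv_rev]

lemma B0_inv (ρ : Representation k (FP d₁ d₂) V) :
    Inv (B0 d₁ d₂ σ₁ σ₂ h₁ h₂ ρ) (EE d₁ d₂ ρ) := by
  intro g f hf n hn
  ext v
  change ρ (s₂ d₁ d₂ σ₁ h₁ g) (f (ρ (cc d₁ d₂ σ₁ σ₂ h₁ h₂ g⁻¹) (ρ n v)))
    = ρ n (ρ (s₂ d₁ d₂ σ₁ h₁ g) (f (ρ (cc d₁ d₂ σ₁ σ₂ h₁ h₂ g⁻¹) v)))
  set c := cc d₁ d₂ σ₁ σ₂ h₁ h₂ g with hc
  have hc' : cc d₁ d₂ σ₁ σ₂ h₁ h₂ g⁻¹ = c⁻¹ := by rw [map_inv]
  rw [hc']
  have hn' : pr₂ d₁ d₂ (c⁻¹ * n * c) = 1 := by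
    rw [map_mul, map_mul, hn, mul_one, ← map_mul, inv_mul_cancel, map_one]
  have e1 : ρ c⁻¹ (ρ n v) = ρ (c⁻¹ * n * c) (ρ c⁻¹ v) := by
    rw [← Module.End.mul_apply, ← Module.End.mul_apply, ← map_mul, ← map_mul]
    congr 2
    group
  rw [e1]
  have e2 := congrArg (fun l : V →ₗ[k] V => l (ρ c⁻¹ v)) (hf _ hn')
  simp only [LinearMap.comp_apply] at e2
  rw [e2]
  have e3 : s₂ d₁ d₂ σ₁ h₁ g * (c⁻¹ * n * c) = n * s₂ d₁ d₂ σ₁ h₁ g := by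
    have hn2 : (n : G₁ × G₂).2 = 1 := hn
    have hc1 : (c : G₁ × G₂).1 = σ₁ (d₂ g) := rfl
    have hs1 : ((s₂ d₁ d₂ σ₁ h₁ g : FP d₁ d₂) : G₁ × G₂).1 = σ₁ (d₂ g) := rfl
    apply Subtype.ext
    apply Prod.ext
    · change ((s₂ d₁ d₂ σ₁ h₁ g : FP d₁ d₂) : G₁ × G₂).1 *
        ((c : G₁ × G₂).1⁻¹ * (n : G₁ × G₂).1 * (c : G₁ × G₂).1)
        = (n : G₁ × G₂).1 * ((s₂ d₁ d₂ σ₁ h₁ g : FP d₁ d₂) : G₁ × G₂).1
      rw [hc1, hs1]
      group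
    · change ((s₂ d₁ d₂ σ₁ h₁ g : FP d₁ d₂) : G₁ × G₂).2 *
        ((c : G₁ × G₂).2⁻¹ * (n : G₁ × G₂).2 * (c : G₁ × G₂).2)
        = (n : G₁ × G₂).2 * ((s₂ d₁ d₂ σ₁ h₁ g : FP d₁ d₂) : G₁ × G₂).2
      rw [hn2]
      group
  have e4 : ∀ (x y : FP d₁ d₂) (w : V), ρ x (ρ y w) = ρ (x * y) w := fun x y w => by
    rw [map_mul, Module.End.mul_apply]
  rw [e4, e4, e3]

/-- **Core statement.** A continuous representation of the fibre product is a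
quotient of `p₁^* A ⊗ p₂^* B`. -/
theorem core [TopologicalSpace k] [IsTopologicalRing k] [TopologicalSpace G₁]
    [IsTopologicalGroup G₁] [TopologicalSpace G₂] [IsTopologicalGroup G₂] [TopologicalSpace Z]
    (hd₁ : Continuous d₁) (hd₂ : Continuous d₂) (hσ₁ : Continuous σ₁) (hσ₂ : Continuous σ₂)
    (ρ : Representation k (FP d₁ d₂) V) (hc : Cont ρ) :
    Cont (ρ.comp (s₁ d₁ d₂ σ₂ h₂)) ∧
    Cont (sub (B0 d₁ d₂ σ₁ σ₂ h₁ h₂ ρ) (EE d₁ d₂ ρ) (B0_inv d₁ d₂ σ₁ σ₂ h₁ h₂ ρ)) ∧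
    SQ ρ (Representation.tprod ((MonoidHom.comp ρ (s₁ d₁ d₂ σ₂ h₂)).comp (pr₁ d₁ d₂))
      ((sub (B0 d₁ d₂ σ₁ σ₂ h₁ h₂ ρ) (EE d₁ d₂ ρ)
        (B0_inv d₁ d₂ σ₁ σ₂ h₁ h₂ ρ)).comp (pr₂ d₁ d₂))) := by
  have cs₁ : Continuous (s₁ d₁ d₂ σ₂ h₂) := by
    refine Continuous.subtype_mk ?_ _
    exact continuous_id.prodMk (hσ₂.comp hd₁)
  have cs₂ : Continuous (s₂ d₁ d₂ σ₁ h₁) := by
    refine Continuous.subtype_mk ?_ _
    exact (hσ₁.comp hd₂).prodMk continuous_id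
  have cp₁ : Continuous (pr₁ d₁ d₂) := continuous_fst.comp continuous_subtype_val
  refine ⟨hc.comp _ cs₁, ?_, ?_⟩
  · refine (sq_sub _ _ (B0_inv d₁ d₂ σ₁ σ₂ h₁ h₂ ρ)).cont ?_
    intro f Φ
    exact cont_end hc cs₂ ((cs₁.comp (cp₁.comp cs₂)).comp continuous_inv) f Φ
  · -- the evaluation map
    let ev : V ⊗[k] (EE d₁ d₂ ρ) →ₗ[k] V :=
      TensorProduct.lift (LinearMap.flip (EE d₁ d₂ ρ).subtype)
    have hev : ∀ (v : V) (f : EE d₁ d₂ ρ), ev (v ⊗ₜ f) = (f : V →ₗ[k] V) v := fun v f => rfl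
    refine ⟨⊤, fun _ _ _ => trivial, ev, ?_, ?_⟩
    · intro h u _
      induction u using TensorProduct.induction_on with
      | zero => simp only [map_zero]
      | add x y hx hy => rw [map_add, map_add, map_add, map_add, hx trivial, hy trivial]
      | tmul v f =>
        rw [hev]
        change ev ((ρ (s₁ d₁ d₂ σ₂ h₂ (pr₁ d₁ d₂ h)) v) ⊗ₜ
          (sub (B0 d₁ d₂ σ₁ σ₂ h₁ h₂ ρ) (EE d₁ d₂ ρ) (B0_inv d₁ d₂ σ₁ σ₂ h₁ h₂ ρ)
            (pr₂ d₁ d₂ h) f)) = _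
        rw [hev]
        change ρ (s₂ d₁ d₂ σ₁ h₁ (pr₂ d₁ d₂ h)) ((f : V →ₗ[k] V)
          (ρ (cc d₁ d₂ σ₁ σ₂ h₁ h₂ (pr₂ d₁ d₂ h)⁻¹) (ρ (s₁ d₁ d₂ σ₂ h₂ (pr₁ d₁ d₂ h)) v)))
          = ρ h ((f : V →ₗ[k] V) v)
        set a := s₂ d₁ d₂ σ₁ h₁ (pr₂ d₁ d₂ h) with ha
        set c := cc d₁ d₂ σ₁ σ₂ h₁ h₂ (pr₂ d₁ d₂ h) with hc0
        set b := s₁ d₁ d₂ σ₂ h₂ (pr₁ d₁ d₂ h) with hb
        have hc' : cc d₁ d₂ σ₁ σ₂ h₁ h₂ (pr₂ d₁ d₂ h)⁻¹ = c⁻¹ := by rw [map_inv]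
        rw [hc']
        have hh : d₁ (h : G₁ × G₂).1 = d₂ (h : G₁ × G₂).2 := h.2
        have a1 : (a : G₁ × G₂).1 = σ₁ (d₂ (h : G₁ × G₂).2) := rfl
        have a2 : (a : G₁ × G₂).2 = (h : G₁ × G₂).2 := rfl
        have c1 : (c : G₁ × G₂).1 = σ₁ (d₂ (h : G₁ × G₂).2) := rfl
        have c2 : (c : G₁ × G₂).2 = σ₂ (d₁ (σ₁ (d₂ (h : G₁ × G₂).2))) := rfl
        have b1 : (b : G₁ × G₂).1 = (h : G₁ × G₂).1 := rfl
        have b2 : (b : G₁ × G₂).2 = σ₂ (d₁ (h : G₁ × G₂).1) := rfl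
        have hn : pr₂ d₁ d₂ (c⁻¹ * b) = 1 := by
          change (c : G₁ × G₂).2⁻¹ * (b : G₁ × G₂).2 = 1
          rw [c2, b2, h₁, hh, inv_mul_cancel]
        have e1 : ρ c⁻¹ (ρ b v) = ρ (c⁻¹ * b) v := by
          rw [map_mul, Module.End.mul_apply]
        rw [e1]
        have e2 := congrArg (fun l : V →ₗ[k] V => l v) (f.2 _ hn)
        simp only [LinearMap.comp_apply] at e2
        rw [e2, ← Module.End.mul_apply, ← map_mul]
        have e3 : a * (c⁻¹ * b) = h := by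
          apply Subtype.ext
          apply Prod.ext
          · change (a : G₁ × G₂).1 * ((c : G₁ × G₂).1⁻¹ * (b : G₁ × G₂).1)
              = (h : G₁ × G₂).1
            rw [a1, c1, b1]
            group
          · change (a : G₁ × G₂).2 * ((c : G₁ × G₂).2⁻¹ * (b : G₁ × G₂).2)
              = (h : G₁ × G₂).2
            rw [a2, c2, b2, h₁, hh, inv_mul_cancel, mul_one]
        rw [e3]
    · intro v
      refine ⟨v ⊗ₜ ⟨LinearMap.id, ?_⟩, trivial, rfl⟩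
      intro n _
      rfl

end core

end W522.V
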