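import Pool.Agent.W522.V.V2

/-! Constituents of representations of fibre products, twists, and geometric origin. -/

namespace W522.V

open scoped TensorProduct

variable {k : Type} [Field k] {G₁ G₂ Z : Type} [Group G₁] [Group G₂] [Group Z]

/-- Every continuous irreducible representation of the fibre product is a subquotient of the
exterior tensor product of continuous irreducible representations of the factors. -/
theorem exterior {V : Type} [AddCommGroup V] [Module k V] [FiniteDimensional k V]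
    (d₁ : G₁ →* Z) (d₂ : G₂ →* Z) (σ₁ : Z →* G₁) (σ₂ : Z →* G₂)
    (h₁ : ∀ z, d₁ (σ₁ z) = z) (h₂ : ∀ z, d₂ (σ₂ z) = z)
    [TopologicalSpace k] [IsTopologicalRing k] [TopologicalSpace G₁]
    [IsTopologicalGroup G₁] [TopologicalSpace G₂] [IsTopologicalGroup G₂] [TopologicalSpace Z]
    (hd₁ : Continuous d₁) (hd₂ : Continuous d₂) (hσ₁ : Continuous σ₁) (hσ₂ : Continuous σ₂)
    (ρ : Representation k (FP d₁ d₂) V) (hρ : Irr ρ) (hc : Cont ρ) :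
    ∃ (C₁ : Type) (_ : AddCommGroup C₁) (_ : Module k C₁) (_ : FiniteDimensional k C₁)
      (γ₁ : Representation k G₁ C₁)
      (C₂ : Type) (_ : AddCommGroup C₂) (_ : Module k C₂) (_ : FiniteDimensional k C₂)
      (γ₂ : Representation k G₂ C₂),
      Irr γ₁ ∧ Cont γ₁ ∧ Irr γ₂ ∧ Cont γ₂ ∧
      SQ ρ (tens (pull (pr₁ d₁ d₂) γ₁) (pull (pr₂ d₁ d₂) γ₂)) := by
  obtain ⟨cA, cB, hAB⟩ := core d₁ d₂ σ₁ σ₂ h₁ h₂ hd₁ hd₂ hσ₁ hσ₂ ρ hc
  obtain ⟨C₁, i1, i2, i3, γ₁, hi₁, hq₁, hs₁⟩ := left_const hρ (pr₁ d₁ d₂) _ _ V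
    (MonoidHom.comp ρ (s₁ d₁ d₂ σ₂ h₂)) rfl hAB
  have hs₁' := swap _ _ hs₁
  obtain ⟨C₂, j1, j2, j3, γ₂, hi₂, hq₂, hs₂⟩ := left_const hρ (pr₂ d₁ d₂) _ _ _
    (sub (B0 d₁ d₂ σ₁ σ₂ h₁ h₂ ρ) (EE d₁ d₂ ρ) (B0_inv d₁ d₂ σ₁ σ₂ h₁ h₂ ρ)) rfl hs₁'
  exact ⟨C₁, i1, i2, i3, γ₁, C₂, j1, j2, j3, γ₂, hi₁, hq₁.cont cA, hi₂, hq₂.cont cB,
    swap _ _ hs₂⟩

/-- A class `𝒢` of representations of `H` is closed under subquotients and tensor products. -/
def Closed {H : Type} [Group H]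
    (𝒢 : ∀ (V : Type) [AddCommGroup V] [Module k V], Representation k H V → Prop) : Prop :=
  (∀ (V W : Type) [AddCommGroup V] [Module k V] [AddCommGroup W] [Module k W]
    (ρ : Representation k H V) (τ : Representation k H W), SQ ρ τ → 𝒢 W τ → 𝒢 V ρ) ∧
  (∀ (V W : Type) [AddCommGroup V] [Module k V] [AddCommGroup W] [Module k W]
    (ρ : Representation k H V) (τ : Representation k H W), 𝒢 V ρ → 𝒢 W τ →
      𝒢 (V ⊗[k] W) (tens ρ τ))

/-- A continuous character of `Z`. -/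
def ContChar [TopologicalSpace k] [TopologicalSpace Z] (χ : Z →* kˣ) : Prop :=
  Continuous (chi χ)

/-- Every continuous irreducible representation of the factor `G` becomes, after the pullback
along `p` and a twist by a continuous character of `Z`, a member of `𝒢`. -/
def Covers {G H : Type} [Group G] [Group H] [TopologicalSpace G] [TopologicalSpace k]
    [TopologicalSpace Z] (p : H →* G) (d : H →* Z)
    (𝒢 : ∀ (V : Type) [AddCommGroup V] [Module k V], Representation k H V → Prop) : Prop :=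
  ∀ (C : Type) [AddCommGroup C] [Module k C] [FiniteDimensional k C]
    (γ : Representation k G C), Irr γ → Cont γ →
    ∃ χ : Z →* kˣ, ContChar χ ∧ 𝒢 C (tw (χ.comp d) (pull p γ))

lemma tw_tprod {H V W : Type} [Group H] [AddCommGroup V] [Module k V] [AddCommGroup W]
    [Module k W] (χ ψ : H →* kˣ) (ρ : Representation k H V) (τ : Representation k H W) :
    tens (tw χ ρ) (tw ψ τ) = tw (χ * ψ) (tens ρ τ) := by
  ext g v w
  simp [Representation.tprod_apply, TensorProduct.smul_tmul', TensorProduct.tmul_smul, smul_smul,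
    mul_comm]

/-- Geometric origin up to twist for fibre products. -/
theorem up_to_twist {V : Type} [AddCommGroup V] [Module k V] [FiniteDimensional k V]
    (d₁ : G₁ →* Z) (d₂ : G₂ →* Z) (σ₁ : Z →* G₁) (σ₂ : Z →* G₂)
    (h₁ : ∀ z, d₁ (σ₁ z) = z) (h₂ : ∀ z, d₂ (σ₂ z) = z)
    [TopologicalSpace k] [IsTopologicalRing k] [TopologicalSpace G₁]
    [IsTopologicalGroup G₁] [TopologicalSpace G₂] [IsTopologicalGroup G₂] [TopologicalSpace Z]
    (hd₁ : Continuous d₁) (hd₂ : Continuous d₂) (hσ₁ : Continuous σ₁) (hσ₂ : Continuous σ₂)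
    (𝒢 : ∀ (V : Type) [AddCommGroup V] [Module k V],
      Representation k (FP d₁ d₂) V → Prop) (hG : Closed 𝒢)
    (hC₁ : Covers (pr₁ d₁ d₂) (dg d₁ d₂) 𝒢) (hC₂ : Covers (pr₂ d₁ d₂) (dg d₁ d₂) 𝒢)
    (ρ : Representation k (FP d₁ d₂) V) (hρ : Irr ρ) (hc : Cont ρ) :
    ∃ χ : Z →* kˣ, ContChar χ ∧ 𝒢 V (tw (χ.comp (dg d₁ d₂)) ρ) := by
  obtain ⟨C₁, i1, i2, i3, γ₁, C₂, j1, j2, j3, γ₂, hi₁, hc₁, hi₂, hc₂, hsq⟩ :=
    exterior d₁ d₂ σ₁ σ₂ h₁ h₂ hd₁ hd₂ hσ₁ hσ₂ ρ hρ hc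
  obtain ⟨χ₁, cχ₁, g₁⟩ := hC₁ C₁ γ₁ hi₁ hc₁
  obtain ⟨χ₂, cχ₂, g₂⟩ := hC₂ C₂ γ₂ hi₂ hc₂
  refine ⟨χ₁ * χ₂, ?_, ?_⟩
  · refine (Continuous.mul cχ₁ cχ₂).congr fun z => ?_
    simp [chi]
  · have h3 := hG.2 _ _ _ _ g₁ g₂
    rw [tw_tprod] at h3
    have h4 : (χ₁.comp (dg d₁ d₂)) * (χ₂.comp (dg d₁ d₂)) = (χ₁ * χ₂).comp (dg d₁ d₂) := rfl
    rw [h4] at h3
    exact hG.1 _ _ _ _ (hsq.twist _) h3

end W522.V
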