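import Pool.Agent.W522.V.V3

/-! Spaces, products and dominated varieties. -/

namespace W522.V

open scoped TensorProduct

/-- The data of a geometrically connected normal variety `X` over a finite field that enter the
argument: its fundamental group `H` with the degree map `d` to `Z` (the absolute Galois group
of the finite field, with Frobenius `φ`), a continuous section `σ` of `d`, the Frobenius `F` at a
closed point of degree `m`, and the class `𝒢` of the representations of geometric origin. -/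
structure Space (k Z : Type) [Field k] [Group Z] [TopologicalSpace Z] (φ : Z) where
  H : Type
  [grp : Group H]
  [top : TopologicalSpace H]
  [tg : IsTopologicalGroup H]
  d : H →* Z
  σ : Z →* H
  dσ : ∀ z, d (σ z) = z
  cd : Continuous d
  cσ : Continuous σ
  F : H
  m : ℕ
  mpos : 0 < m
  dF : d F = φ ^ m
  𝒢 : ∀ (V : Type) [AddCommGroup V] [Module k V], Representation k H V → Prop
  closed : Closed 𝒢

attribute [instance] Space.grp Space.top Space.tg

variable {k Z : Type} [Field k] [TopologicalSpace k] [IsTopologicalDivisionRing k] [Group Z]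
  [TopologicalSpace Z] {φ : Z}

/-- Every continuous irreducible representation is of geometric origin after a twist by a
continuous character of `Z`. -/
def GoodUpToTwist (X : Space k Z φ) : Prop :=
  ∀ (V : Type) [AddCommGroup V] [Module k V] [FiniteDimensional k V]
    (ρ : Representation k X.H V), Irr ρ → Cont ρ →
    ∃ χ : Z →* kˣ, ContChar χ ∧ X.𝒢 V (tw (χ.comp X.d) ρ)

/-- `H` with the homomorphisms `p₁`, `p₂` is, as a topological group over `Z`, the fibre product
of `G₁` and `G₂` over `Z`. -/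
def IsoFP {H G₁ G₂ : Type} [Group H] [TopologicalSpace H] [Group G₁] [TopologicalSpace G₁]
    [Group G₂] [TopologicalSpace G₂] (d : H →* Z) (d₁ : G₁ →* Z) (d₂ : G₂ →* Z)
    (p₁ : H →* G₁) (p₂ : H →* G₂) : Prop :=
  ∃ e : H ≃* FP d₁ d₂, Continuous e ∧ Continuous e.symm ∧ (∀ h, dg d₁ d₂ (e h) = d h) ∧
    (∀ h, pr₁ d₁ d₂ (e h) = p₁ h) ∧ ∀ h, pr₂ d₁ d₂ (e h) = p₂ h

/-- The class `𝒢` of representations of `G` is mapped into the class `𝒢'` by the pullback along
`p : H → G`. -/
def PullsBack {H G : Type} [Group H] [Group G] (p : H →* G)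
    (𝒢 : ∀ (V : Type) [AddCommGroup V] [Module k V], Representation k G V → Prop)
    (𝒢' : ∀ (V : Type) [AddCommGroup V] [Module k V], Representation k H V → Prop) : Prop :=
  ∀ (C : Type) [AddCommGroup C] [Module k C] (γ : Representation k G C),
    𝒢 C γ → 𝒢' C (pull p γ)

/-- `X` is the product of `X₁` and `X₂`: its fundamental group is the fibre product over `Z`, and
geometric origin is stable under the pullbacks along the projections. -/
def IsProd (X X₁ X₂ : Space k Z φ) : Prop :=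
  ∃ (p₁ : X.H →* X₁.H) (p₂ : X.H →* X₂.H), IsoFP X.d X₁.d X₂.d p₁ p₂ ∧
    PullsBack p₁ X₁.𝒢 X.𝒢 ∧ PullsBack p₂ X₂.𝒢 X.𝒢

/-- The smallest class of spaces that contains `curve` and is closed under products. -/
inductive Prods (curve : Space k Z φ → Prop) : Space k Z φ → Prop
  | base (X : Space k Z φ) : curve X → Prods curve X
  | prod (X X₁ X₂ : Space k Z φ) : Prods curve X₁ → Prods curve X₂ → IsProd X X₁ X₂ →
      Prods curve X

/-- The determinant of `g` on the representation `ρ` lies in `Wl`. -/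
def DetIn {H V : Type} [Group H] [AddCommGroup V] [Module k V] (Wl : Subgroup kˣ)
    (ρ : Representation k H V) (g : H) : Prop :=
  ∃ w ∈ Wl, (w : k) = LinearMap.det (act ρ g)

/-- Weights on `X`: the determinant of `F` on every representation of geometric origin lies in
`Wl`, and the characters of `Z` whose value at `φ` is in `Wl` are of geometric origin. -/
def WeightsOn (Wl : Subgroup kˣ) (X : Space k Z φ) : Prop :=
  (∀ (V : Type) [AddCommGroup V] [Module k V] [FiniteDimensional k V]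
    (ρ : Representation k X.H V), X.𝒢 V ρ → DetIn Wl ρ X.F) ∧
  (∀ χ : Z →* kˣ, ContChar χ → χ φ ∈ Wl →
    X.𝒢 k (tw (χ.comp X.d) (1 : Representation k X.H k)))

/-- `X'` dominates `X` by a generically finite map: a continuous homomorphism of fundamental
groups such that an irreducible representation of `X` with a subquotient on `X'` of geometric
origin is of geometric origin (direct image). -/
def Dominates (X' X : Space k Z φ) (p : X'.H →* X.H) : Prop :=
  Continuous p ∧
  ∀ (V C : Type) [AddCommGroup V] [Module k V] [FiniteDimensional k V] [AddCommGroup C]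
    [Module k C] [FiniteDimensional k C] (ρ : Representation k X.H V)
    (γ : Representation k X'.H C), Irr ρ → Cont ρ → Irr γ → SQ γ (pull p ρ) →
    X'.𝒢 C γ → X.𝒢 V ρ

lemma good_prod (X X₁ X₂ : Space k Z φ) (h₁ : GoodUpToTwist X₁) (h₂ : GoodUpToTwist X₂)
    (h : IsProd X X₁ X₂) : GoodUpToTwist X := by
  obtain ⟨p₁, p₂, ⟨e, ce, ces, hd, he₁, he₂⟩, hp₁, hp₂⟩ := h
  have hq₁ : (pr₁ X₁.d X₂.d).comp e.toMonoidHom = p₁ := MonoidHom.ext he₁
  have hq₂ : (pr₂ X₁.d X₂.d).comp e.toMonoidHom = p₂ := MonoidHom.ext he₂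
  intro V _ _ _ ρ hρ hc
  -- transport to the fibre product
  let 𝒢' : ∀ (V : Type) [AddCommGroup V] [Module k V],
      Representation k (FP X₁.d X₂.d) V → Prop :=
    fun V _ _ τ => X.𝒢 V (τ.comp e.toMonoidHom)
  have hcl : Closed 𝒢' := by
    refine ⟨?_, ?_⟩
    · intro V W _ _ _ _ ρ τ hsq hτ
      refine X.closed.1 _ _ (ρ.comp e.toMonoidHom) (τ.comp e.toMonoidHom) ?_ hτ
      obtain ⟨S, hS, f, he, hs⟩ := hsq
      exact ⟨S, fun g => hS (e g), f, fun g => he (e g), hs⟩
    · intro V W _ _ _ _ ρ τ hρ hτ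
      have ht : (Representation.tprod ρ τ).comp e.toMonoidHom
          = Representation.tprod (MonoidHom.comp ρ e.toMonoidHom)
            (MonoidHom.comp τ e.toMonoidHom) := MonoidHom.ext fun g => rfl
      change X.𝒢 (V ⊗[k] W) ((Representation.tprod ρ τ).comp e.toMonoidHom)
      rw [ht]
      exact X.closed.2 _ _ _ _ hρ hτ
  have hd' : (dg X₁.d X₂.d).comp e.toMonoidHom = X.d := MonoidHom.ext hd
  have hC₁ : Covers (k := k) (pr₁ X₁.d X₂.d) (dg X₁.d X₂.d) 𝒢' := by
    intro C _ _ _ γ hi hcγ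
    obtain ⟨χ, cχ, hg⟩ := h₁ C γ hi hcγ
    refine ⟨χ, cχ, ?_⟩
    have h3 := hp₁ C _ hg
    rw [← hq₁] at h3
    exact h3
  have hC₂ : Covers (k := k) (pr₂ X₁.d X₂.d) (dg X₁.d X₂.d) 𝒢' := by
    intro C _ _ _ γ hi hcγ
    obtain ⟨χ, cχ, hg⟩ := h₂ C γ hi hcγ
    refine ⟨χ, cχ, ?_⟩
    have h3 := hp₂ C _ hg
    rw [← hq₂] at h3
    have h4 : ∀ h : FP X₁.d X₂.d, X₂.d (pr₂ X₁.d X₂.d h) = dg X₁.d X₂.d h :=
      fun h => h.2.symm
    have h5 : (χ.comp X₂.d).comp (pr₂ X₁.d X₂.d) = χ.comp (dg X₁.d X₂.d) :=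
      MonoidHom.ext fun h => congrArg χ (h4 h)
    change X.𝒢 C ((tw (χ.comp (dg X₁.d X₂.d)) (γ.comp (pr₂ X₁.d X₂.d))).comp e.toMonoidHom)
    rw [← h5]
    exact h3
  have hi : Irr (MonoidHom.comp ρ e.symm.toMonoidHom) := by
    refine ⟨hρ.1, fun S hS => hρ.2 S fun g u hu => ?_⟩
    have h8 : ρ (e.symm (e g)) u ∈ S := hS (e g) u hu
    rw [e.symm_apply_apply] at h8
    exact h8
  have hc' : Cont (MonoidHom.comp ρ e.symm.toMonoidHom) :=
    fun v ψ => (hc v ψ).comp ces
  obtain ⟨χ, cχ, hg⟩ := up_to_twist X₁.d X₂.d X₁.σ X₂.σ X₁.dσ X₂.dσ X₁.cd X₂.cd X₁.cσ X₂.cσ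
    𝒢' hcl hC₁ hC₂ (MonoidHom.comp ρ e.symm.toMonoidHom) hi hc'
  refine ⟨χ, cχ, ?_⟩
  have h6 : (tw (χ.comp (dg X₁.d X₂.d)) (MonoidHom.comp ρ e.symm.toMonoidHom)).comp
      e.toMonoidHom = tw (χ.comp X.d) ρ := by
    ext g v
    simp [hd, chi, act]
  have h7 : X.𝒢 V ((tw (χ.comp (dg X₁.d X₂.d)) (MonoidHom.comp ρ e.symm.toMonoidHom)).comp
      e.toMonoidHom) := hg
  rw [h6] at h7
  exact h7

lemma good_prods {curve : Space k Z φ → Prop} (hc : ∀ X, curve X → GoodUpToTwist X)
    (X : Space k Z φ) (h : Prods curve X) : GoodUpToTwist X := by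
  induction h with
  | base X h => exact hc X h
  | prod X X₁ X₂ _ _ h ih₁ ih₂ => exact good_prod X X₁ X₂ ih₁ ih₂ h

lemma cont_inv (χ : Z →* kˣ) (h : ContChar χ) : ContChar χ⁻¹ := by
  refine (Continuous.inv₀ h fun z => (χ z).ne_zero).congr fun z => ?_
  simp [chi]

/-- If a twist is of geometric origin and the determinant of `F` is in `Wl`, the representation
itself is of geometric origin. -/
lemma untwist (Wl : Subgroup kˣ) (hroot : ∀ (x : kˣ) (n : ℕ), 0 < n → x ^ n ∈ Wl → x ∈ Wl)
    (X : Space k Z φ) (hW : WeightsOn Wl X) {V : Type} [AddCommGroup V] [Module k V]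
    [FiniteDimensional k V] (hnt : Nontrivial V) (ρ : Representation k X.H V)
    (hdet : DetIn Wl ρ X.F) (χ : Z →* kˣ) (hχ : ContChar χ)
    (hg : X.𝒢 V (tw (χ.comp X.d) ρ)) : X.𝒢 V ρ := by
  obtain ⟨w, hw, hw'⟩ := hW.1 V _ hg
  obtain ⟨u, hu, hu'⟩ := hdet
  have hw' : (w : k) = LinearMap.det (((χ (X.d X.F) : kˣ) : k) • (ρ X.F)) := hw'
  have hu' : (u : k) = LinearMap.det (ρ X.F) := hu'
  have hr : 0 < Module.finrank k V := Module.finrank_pos
  have hval : w = (χ φ) ^ (X.m * Module.finrank k V) * u := by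
    apply Units.ext
    rw [Units.val_mul, Units.val_pow_eq_pow_val, hu', hw', LinearMap.det_smul,
      X.dF, map_pow, Units.val_pow_eq_pow_val, ← pow_mul]
  have hχφ : χ φ ∈ Wl := by
    refine hroot _ (X.m * Module.finrank k V) (Nat.mul_pos X.mpos hr) ?_
    have : (χ φ) ^ (X.m * Module.finrank k V) = w * u⁻¹ := by rw [hval]; group
    rw [this]
    exact Wl.mul_mem hw (Wl.inv_mem hu)
  have hk := hW.2 χ⁻¹ (cont_inv χ hχ) (Wl.inv_mem hχφ)
  have h3 := X.closed.2 _ _ _ _ hg hk
  rw [tw_tprod] at h3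
  have h4 : (χ.comp X.d) * (χ⁻¹.comp X.d) = 1 := by
    ext g
    simp
  rw [h4] at h3
  refine X.closed.1 _ _ _ _ ?_ h3
  refine ⟨⊤, fun _ _ _ => trivial, (TensorProduct.rid k V).toLinearMap, ?_, ?_⟩
  · intro g u _
    have : (TensorProduct.rid k V).toLinearMap ∘ₗ
        (tw 1 (tens ρ (1 : Representation k X.H k)) g)
        = (ρ g) ∘ₗ (TensorProduct.rid k V).toLinearMap := by
      ext v
      simp [Representation.tprod_apply, chi, act]
    exact congrArg (fun l => l u) this
  · intro v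
    exact ⟨(TensorProduct.rid k V).symm v, trivial, by simp⟩

/-- A nonzero finite-dimensional representation has an irreducible subquotient (sub). -/
lemma exists_irr {G : Type} [Group G] (n : ℕ) : ∀ (A : Type) [AddCommGroup A] [Module k A]
    [FiniteDimensional k A] (α : Representation k G A), Module.finrank k A = n → Nontrivial A →
    ∃ (C : Type) (_ : AddCommGroup C) (_ : Module k C) (_ : FiniteDimensional k C)
      (γ : Representation k G C), Irr γ ∧ SQ γ α := by
  induction n using Nat.strong_induction_on with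
  | _ n ih =>
  intro A _ _ _ α hn hnt
  by_cases hirr : Irr α
  · exact ⟨A, inferInstance, inferInstance, inferInstance, α, hirr, sq_refl α⟩
  · have hex : ∃ S : Submodule k A, Inv α S ∧ S ≠ ⊥ ∧ S ≠ ⊤ := by
      by_contra hcon
      apply hirr
      refine ⟨hnt, fun S hS => ?_⟩
      by_contra h
      rw [not_or] at h
      exact hcon ⟨S, hS, h.1, h.2⟩
    obtain ⟨S, hS, hb, ht⟩ := hex
    have hlt : Module.finrank k S < n := by
      rw [← hn]
      exact Submodule.finrank_lt ht
    obtain ⟨C, i1, i2, i3, γ, h1, h2⟩ := ih _ hlt S (sub α S hS) rfl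
      (Submodule.nontrivial_iff_ne_bot.2 hb)
    exact ⟨C, i1, i2, i3, γ, h1, h2.trans (sq_sub α S hS)⟩

/-- The determinant is of finite order. -/
def FinOrd {H V : Type} [Group H] [AddCommGroup V] [Module k V]
    (ρ : Representation k H V) : Prop :=
  ∃ n : ℕ, 0 < n ∧ ∀ h, LinearMap.det (act ρ h) ^ n = 1

/-- The answer to the question for `X`: every continuous irreducible representation with
determinant of finite order is of geometric origin. -/
def FiniteDet (X : Space k Z φ) : Prop :=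
  ∀ (V : Type) [AddCommGroup V] [Module k V] [FiniteDimensional k V]
    (ρ : Representation k X.H V), Irr ρ → Cont ρ → FinOrd ρ → X.𝒢 V ρ

/-- The representation is pure at `g`: the determinant of `g` is in `Wl` on all
subquotients. -/
def PureAt {H V : Type} [Group H] [AddCommGroup V] [Module k V] (Wl : Subgroup kˣ)
    (ρ : Representation k H V) (g : H) : Prop :=
  ∀ (C : Type) [AddCommGroup C] [Module k C] [FiniteDimensional k C]
    (γ : Representation k H C), SQ γ ρ → DetIn Wl γ g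

/-- The answer for `X` and the representations whose pullback to `X'` is pure. -/
def PureAlong (Wl : Subgroup kˣ) (X' X : Space k Z φ) (p : X'.H →* X.H) : Prop :=
  ∀ (V : Type) [AddCommGroup V] [Module k V] [FiniteDimensional k V]
    (ρ : Representation k X.H V), Irr ρ → Cont ρ → PureAt Wl (pull p ρ) X'.F → X.𝒢 V ρ

/-- `Wl` is closed under roots. -/
def RootClosed (Wl : Subgroup kˣ) : Prop := ∀ (x : kˣ) (n : ℕ), 0 < n → x ^ n ∈ Wl → x ∈ Wl

theorem finiteDet (Wl : Subgroup kˣ) (hroot : RootClosed Wl) (X' : Space k Z φ)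
    (hgood : GoodUpToTwist X') (hW : WeightsOn Wl X') : FiniteDet X' := by
  intro V _ _ _ ρ hρ hc ⟨n, hn, hdet⟩
  obtain ⟨χ, cχ, hg⟩ := hgood V ρ hρ hc
  refine untwist Wl hroot X' hW hρ.1 ρ ?_ χ cχ hg
  have hne : LinearMap.det (ρ X'.F) ≠ 0 := by
    intro h0
    have h1 : LinearMap.det (ρ X'.F) ^ n = 1 := hdet X'.F
    rw [h0, zero_pow hn.ne'] at h1
    exact zero_ne_one h1
  refine ⟨Units.mk0 _ hne, hroot _ n hn ?_, rfl⟩
  have : (Units.mk0 (LinearMap.det (ρ X'.F)) hne) ^ n = 1 := by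
    apply Units.ext
    simpa using hdet X'.F
  rw [this]
  exact Wl.one_mem

theorem pureAlong (Wl : Subgroup kˣ) (hroot : RootClosed Wl) (X' X : Space k Z φ)
    (p : X'.H →* X.H) (hdom : Dominates X' X p)
    (hgood : GoodUpToTwist X') (hW : WeightsOn Wl X') : PureAlong Wl X' X p := by
  intro V _ _ _ ρ hρ hc hpure
  obtain ⟨C, i1, i2, i3, γ, hi, hsq⟩ := exists_irr (k := k) _ V (MonoidHom.comp ρ p) rfl hρ.1
  have hcγ : Cont γ := hsq.cont (hc.comp p hdom.1)
  obtain ⟨χ, cχ, hg⟩ := hgood C γ hi hcγ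
  exact hdom.2 V C ρ γ hρ hc hi hsq
    (untwist Wl hroot X' hW hi.1 γ (hpure C γ hsq) χ cχ hg)

end W522.V
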