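import Pool.Agent.W522.V.V4

/-! The statements of the hand-in. -/

namespace W522.V

/-- Each continuous irreducible representation of `H` is a subquotient of `p₁^* C₁ ⊗ p₂^* C₂` with
continuous irreducible representations `C₁` of `G₁` and `C₂` of `G₂`. -/
def ExteriorAt (k : Type) [Field k] [TopologicalSpace k] {H G₁ G₂ : Type} [Group H]
    [TopologicalSpace H] [Group G₁] [TopologicalSpace G₁] [Group G₂] [TopologicalSpace G₂]
    (p₁ : H →* G₁) (p₂ : H →* G₂) : Prop :=
  ∀ (V : Type) [AddCommGroup V] [Module k V] [FiniteDimensional k V]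
    (ρ : Representation k H V), Irr ρ → Cont ρ →
    ∃ (C₁ : Type) (_ : AddCommGroup C₁) (_ : Module k C₁) (_ : FiniteDimensional k C₁)
      (γ₁ : Representation k G₁ C₁)
      (C₂ : Type) (_ : AddCommGroup C₂) (_ : Module k C₂) (_ : FiniteDimensional k C₂)
      (γ₂ : Representation k G₂ C₂),
      Irr γ₁ ∧ Cont γ₁ ∧ Irr γ₂ ∧ Cont γ₂ ∧ SQ ρ (tens (pull p₁ γ₁) (pull p₂ γ₂))

end W522.V
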